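import Pool.Agent.Lib.MP_6ff8d9_an_h77.Poinc
import Pool.Agent.Lib.MP_6ff8d9_an_h20r.TangDest

/-!
# MP_6ff8d9 RATIONAL, row B1 (CONTACT)
-/

set_option autoImplicit false

open Metric Filter Topology MvPolynomial
open scoped ComplexConjugate

namespace Pool.Agent.Lib.MP_6ff8d9_an.H1R

open Pool.Agent.Lib.MP_6ff8d9_an Pool.Agent.Lib.MP_6ff8d9_an.Hom
open Pool.Agent.Lib.MP_6ff8d9_an.H22

variable {n : ℕ}

/-- derivative of a polynomial along a complex line through the origin -/
theorem hasDerivAt_line (p : MvPolynomial (Fin n) ℂ) (m : Fin n → ℂ) (t : ℂ) :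
    HasDerivAt (fun t : ℂ => eval (t • m) p) (∑ j, m j * eval (t • m) (pderiv j p)) t := by
  induction p using MvPolynomial.induction_on with
  | C a => simpa using hasDerivAt_const t a
  | add p q hp hq =>
    have h := hp.add hq
    have e : (fun t : ℂ => eval (t • m) (p + q)) =
        (fun t : ℂ => eval (t • m) p) + (fun t : ℂ => eval (t • m) q) := by
      funext t; simp
    have hs : (∑ j, m j * eval (t • m) (pderiv j (p + q))) =
        (∑ j, m j * eval (t • m) (pderiv j p)) + ∑ j, m j * eval (t • m) (pderiv j q) := by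
      rw [← Finset.sum_add_distrib]
      refine Finset.sum_congr rfl fun j _ => ?_
      rw [map_add, map_add]
      ring
    rw [e, hs]
    exact h
  | mul_X p i hp =>
    have hX : HasDerivAt (fun t : ℂ => (t • m) i) (m i) t := by
      have := (hasDerivAt_id t).mul_const (m i)
      simpa [Pi.smul_apply, smul_eq_mul] using this
    have h := hp.mul hX
    have e : (fun t : ℂ => eval (t • m) (p * X i)) =
        (fun t : ℂ => eval (t • m) p) * (fun t : ℂ => (t • m) i) := by
      funext t; simp
    have e2 : ∀ j, m j * eval (t • m) (pderiv j (p * X i)) =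
        m j * eval (t • m) (pderiv j p) * (t • m) i +
          eval (t • m) p * (if j = i then m j else 0) := by
      intro j
      rw [pderiv_mul, map_add, map_mul, map_mul, eval_X, pderiv_X]
      by_cases hji : j = i
      · subst hji
        simp
        ring
      · have : (Pi.single j 1 : Fin n → MvPolynomial (Fin n) ℂ) i = 0 := by
          rw [Pi.single_apply, if_neg (fun h => hji h.symm)]
        simp [hji, this]
        ring
    have hs : (∑ j, m j * eval (t • m) (pderiv j (p * X i))) =
        (∑ j, m j * eval (t • m) (pderiv j p)) * (t • m) i + eval (t • m) p * m i := by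
      rw [Finset.sum_congr rfl fun j _ => e2 j, Finset.sum_add_distrib, ← Finset.sum_mul,
        ← Finset.mul_sum, Finset.sum_ite_eq' Finset.univ i]
      simp
    rw [e, hs]
    exact h

theorem sum_smul_sq (m : Fin n → ℂ) (t : ℂ) :
    ∑ i, ‖(t • m) i‖ ^ 2 = ‖t‖ ^ 2 * ∑ i, ‖m i‖ ^ 2 := by
  rw [Finset.mul_sum]
  refine Finset.sum_congr rfl fun i _ => ?_
  rw [Pi.smul_apply, smul_eq_mul, norm_mul, mul_pow]

theorem contact_row : H22.CONTACT := by
  intro n P Q hA m hm
  obtain ⟨hm1, hmPQ⟩ := hm
  have hQm : eval m Q ≠ 0 := hA.Qne m hm1.le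
  have hPm : eval m P ≠ 0 := by
    intro h
    rw [h, norm_zero] at hmPQ
    exact hQm (norm_eq_zero.1 hmPQ.symm)
  constructor
  · intro j
    obtain ⟨K, _, hK⟩ := H20R.tang_row n P Q hA.toAdm0
    have h := hK m hm1 j
    have h0 : dfc P Q m = 0 := by unfold dfc; rw [hmPQ]; ring
    rw [h0, Real.sqrt_zero, mul_zero] at h
    have h1 : ‖eval m (Wr P Q j) - conj (m j) * eval m (Rr P Q)‖ = 0 := by
      have hq : 0 < ‖eval m Q‖ := norm_pos_iff.2 hQm
      by_contra hne
      have hp := lt_of_le_of_ne (norm_nonneg _) (Ne.symm hne)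
      have := mul_pos hq hp
      linarith
    exact sub_eq_zero.1 (norm_eq_zero.1 h1)
  · -- the slice
    set φ : ℂ → ℂ := fun t => eval (t • m) P / eval (t • m) Q with hφ
    have hball : ∀ t : ℂ, ‖t‖ ≤ 1 → ∑ i, ‖(t • m) i‖ ^ 2 ≤ 1 := by
      intro t ht
      rw [sum_smul_sq, hm1, mul_one]
      exact pow_le_one₀ (norm_nonneg _) ht
    have hball' : ∀ t : ℂ, ‖t‖ < 1 → ∑ i, ‖(t • m) i‖ ^ 2 < 1 := by
      intro t ht
      rw [sum_smul_sq, hm1, mul_one]
      exact pow_lt_one₀ (norm_nonneg _) ht two_ne_zero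
    have hQt : ∀ t : ℂ, ‖t‖ ≤ 1 → eval (t • m) Q ≠ 0 := fun t ht => hA.Qne _ (hball t ht)
    have hle : ∀ t : ℂ, ‖t‖ ≤ 1 → ‖φ t‖ ≤ 1 := by
      intro t ht
      rw [hφ]
      simp only
      rw [norm_div, div_le_one (norm_pos_iff.2 (hQt t ht))]
      exact hA.le _ (hball t ht)
    have hlt : ∀ t : ℂ, ‖t‖ < 1 → ‖φ t‖ < 1 := by
      intro t ht
      rw [hφ]
      simp only
      rw [norm_div, div_lt_one (norm_pos_iff.2 (hQt t ht.le))]
      exact hA.lt _ (hball' t ht)
    have hder : ∀ t : ℂ, ‖t‖ ≤ 1 → HasDerivAt φ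
        (((∑ j, m j * eval (t • m) (pderiv j P)) * eval (t • m) Q -
          eval (t • m) P * (∑ j, m j * eval (t • m) (pderiv j Q))) / eval (t • m) Q ^ 2) t :=
      fun t ht => (hasDerivAt_line P m t).div (hasDerivAt_line Q m t) (hQt t ht)
    have hd1 := hder 1 (by simp)
    rw [one_smul] at hd1
    have hR : eval m (Rr P Q) = (∑ j, m j * eval m (pderiv j P)) * eval m Q -
        eval m P * (∑ j, m j * eval m (pderiv j Q)) := by
      unfold Rr Wr
      rw [map_sum, Finset.sum_mul, Finset.mul_sum, ← Finset.sum_sub_distrib]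
      refine Finset.sum_congr rfl fun j _ => ?_
      simp only [map_mul, map_sub, eval_X]
      ring
    rw [← hR] at hd1
    set d := eval m (Rr P Q) / eval m Q ^ 2 with hd
    set a := φ 1 with ha
    have haPQ : a = eval m P / eval m Q := by rw [ha, hφ]; simp
    have hna : ‖a‖ = 1 := by
      rw [haPQ, norm_div, hmPQ, div_self (norm_ne_zero_iff.2 hQm)]
    have haa : conj a * a = 1 := by
      rw [mul_comm, Complex.mul_conj, Complex.normSq_eq_norm_sq, hna]; simp
    have hφ0 : φ 0 = 0 := by
      rw [hφ]; simp only [zero_smul]; rw [hA.zero, zero_div]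
    -- Schwarz
    have hschw : ∀ t : ℂ, ‖t‖ < 1 → ‖φ t‖ ≤ ‖t‖ := by
      intro t ht
      refine Complex.norm_le_norm_of_mapsTo_ball (R := 1) ?_ ?_ hφ0 ht
      · intro z hz
        exact (hder z (mem_ball_zero_iff.1 hz).le).differentiableAt.differentiableWithinAt
      · intro z hz
        exact mem_closedBall_zero_iff.2 (hlt z (mem_ball_zero_iff.1 hz)).le
    -- radial derivative
    have hrad : HasDerivAt (fun s : ℝ => (conj a * φ (s : ℂ)).re) (conj a * d).re 1 := by
      have h1 : HasDerivAt (fun s : ℂ => conj a * φ s) (conj a * d) ((1 : ℝ) : ℂ) := by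
        simpa using hd1.const_mul (conj a)
      exact h1.real_of_complex
    have hang : HasDerivAt (fun s : ℝ => (conj a * φ (Complex.exp (s * Complex.I))).re)
        (conj a * (d * Complex.I)).re 0 := by
      have he : HasDerivAt (fun s : ℂ => Complex.exp (s * Complex.I)) Complex.I ((0 : ℝ) : ℂ) := by
        have := ((hasDerivAt_id ((0 : ℝ) : ℂ)).mul_const Complex.I).cexp
        simpa using this
      have h2 : HasDerivAt φ d (Complex.exp (((0 : ℝ) : ℂ) * Complex.I)) := by
        simpa using hd1
      have h1 : HasDerivAt (fun s : ℂ => conj a * φ (Complex.exp (s * Complex.I)))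
          (conj a * (d * Complex.I)) ((0 : ℝ) : ℂ) :=
        (HasDerivAt.comp (h₂ := φ) (h := fun s : ℂ => Complex.exp (s * Complex.I))
          ((0 : ℝ) : ℂ) h2 he).const_mul (conj a)
      exact h1.real_of_complex
    have hre1 : ∀ x : ℂ, (conj a * x).re ≤ ‖x‖ := by
      intro x
      refine (Complex.re_le_norm _).trans ?_
      rw [norm_mul, RCLike.norm_conj, hna, one_mul]
    have him : (conj a * d).im = 0 := by
      have hmax : IsLocalMax (fun s : ℝ => (conj a * φ (Complex.exp (s * Complex.I))).re) 0 := by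
        refine Filter.Eventually.of_forall fun s => ?_
        simp only [Complex.ofReal_zero, zero_mul, Complex.exp_zero]
        rw [← ha, haa, Complex.one_re]
        refine (hre1 _).trans (hle _ ?_)
        rw [Complex.norm_exp_ofReal_mul_I]
      have h := hmax.hasDerivAt_eq_zero hang
      have e : (conj a * (d * Complex.I)).re = -(conj a * d).im := by
        rw [← mul_assoc, Complex.mul_I_re]
      rw [e] at h
      linarith
    have hre : 1 ≤ (conj a * d).re := by
      -- the function s - Re(conj a φ(s)) has nonpositive derivative... use the minimum at 1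
      have hd2 : HasDerivAt (fun s : ℝ => (conj a * φ (s : ℂ)).re - s) ((conj a * d).re - 1) 1 :=
        hrad.sub (hasDerivAt_id 1)
      by_contra hlt1
      push Not at hlt1
      have hneg : (conj a * d).re - 1 < 0 := by linarith
      -- then for s < 1 close to 1 the value is larger than at 1
      have hsl := hd2.tendsto_slope
      have hev : ∀ᶠ s in 𝓝[≠] (1 : ℝ), slope (fun s : ℝ => (conj a * φ (s : ℂ)).re - s) 1 s < 0 :=
        hsl.eventually (gt_mem_nhds hneg)
      have hev2 : ∀ᶠ s in 𝓝[<] (1 : ℝ), slope (fun s : ℝ => (conj a * φ (s : ℂ)).re - s) 1 s < 0 :=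
        hev.filter_mono (nhdsWithin_mono _ (fun x hx => ne_of_lt hx))
      have hev3 : ∀ᶠ s in 𝓝[<] (1 : ℝ), 0 < s ∧ s < 1 := by
        filter_upwards [Ioo_mem_nhdsLT (show (0 : ℝ) < 1 by norm_num)] with s hs
        exact hs
      obtain ⟨s, hs1, hs2, hs3⟩ := (hev2.and hev3).exists
      rw [slope_def_field] at hs1
      have hval : (conj a * φ ((1 : ℝ) : ℂ)).re - 1 = 0 := by
        rw [Complex.ofReal_one, ← ha, haa]; simp
      simp only [hval, sub_zero] at hs1
      have hnum : 0 < ((conj a * φ (s : ℂ)).re - s) := by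
        have hneg2 : s - 1 < 0 := by linarith
        by_contra hcon
        push Not at hcon
        have := div_nonneg_of_nonpos hcon hneg2.le
        linarith
      have hb : (conj a * φ (s : ℂ)).re ≤ s := by
        refine (hre1 _).trans ((hschw _ ?_).trans ?_)
        · rw [Complex.norm_real, Real.norm_of_nonneg hs2.le]; exact hs3
        · rw [Complex.norm_real, Real.norm_of_nonneg hs2.le]
      linarith
    refine ⟨(conj a * d).re, by linarith, ?_⟩
    have hdb : conj a * d = ((conj a * d).re : ℂ) := by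
      apply Complex.ext
      · simp
      · rw [him]; simp
    have hda : d = ((conj a * d).re : ℂ) * a := by
      rw [← hdb]
      calc d = (conj a * a) * d := by rw [haa, one_mul]
        _ = conj a * d * a := by ring
    have h3 : eval m (Rr P Q) = d * eval m Q ^ 2 := by
      rw [hd]; field_simp
    rw [h3]
    nth_rewrite 1 [hda]
    rw [haPQ]
    field_simp

end Pool.Agent.Lib.MP_6ff8d9_an.H1R
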