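import Pool.Agent.Lib.MP_6ff8d9_an_h69.Krel
import Pool.Agent.Lib.MP_6ff8d9_an_h77.Mult

/-!
# MP_6ff8d9 PRIME, row KOF: a function constant on the regular parts of the fibres is a function
of `F`
-/

set_option autoImplicit false

open Metric Filter Topology Set

namespace Pool.Agent.Lib.MP_6ff8d9_an.P69

open Pool.Agent.Lib.MP_6ff8d9_an Pool.Agent.Lib.MP_6ff8d9_an.H11

noncomputable section

variable {n : ℕ}

namespace Kof1

/-- a point near `p` where the derivative does not vanish and `F` takes another value -/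
lemma exists_dir {F : Cn n → ℂ} {e : Cn n} (hF : DifferentiableOn ℂ F (ball 0 1))
    (hO : (Oe F e).Nonempty) {p : Cn n} (hp : p ∈ ball (0 : Cn n) 1) {r : ℝ} (hr : 0 < r) :
    ∃ z ∈ ball p r, z ∈ ball (0 : Cn n) 1 ∧ fderiv ℂ F z e ≠ 0 ∧ F z ≠ F p := by
  have hg : DifferentiableOn ℂ (fun z => fderiv ℂ F z e) (ball 0 1) :=
    (differentiableOn_fderiv hF).clm_apply (differentiableOn_const _)
  -- a point of `Oe` in the small ball
  have h1 : ∃ z ∈ ball p r, z ∈ Oe F e := by
    by_contra hne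
    push Not at hne
    obtain ⟨q, hq⟩ := hO
    have h2 : (fun z => fderiv ℂ F z e) =ᶠ[𝓝 p] fun _ => 0 := by
      filter_upwards [ball_mem_nhds p hr, isOpen_ball.mem_nhds hp] with z hz hz1
      by_contra h
      exact hne z hz ⟨hz1, h⟩
    have h3 := Mul77.idt isOpen_ball (convex_ball (0 : Cn n) 1).isPreconnected hg
      (differentiableOn_const 0) hp h2 hq.1
    exact hq.2 h3
  obtain ⟨z1, hz1, hz1O⟩ := h1
  by_contra hne
  push Not at hne
  have h2 : F =ᶠ[𝓝 z1] fun _ => F p := by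
    filter_upwards [isOpen_ball.mem_nhds hz1, (isOpen_Oe hF e).mem_nhds hz1O] with z hz hzO
    exact hne z hz hzO.1 hzO.2
  apply hz1O.2
  rw [h2.fderiv_eq]
  simp

/-- all values near `F p`, except possibly `F p`, are taken on `Oe` near `p` -/
lemma near {F : Cn n → ℂ} {e : Cn n} (hF : DifferentiableOn ℂ F (ball 0 1))
    (hO : (Oe F e).Nonempty) {p : Cn n} (hp : p ∈ ball (0 : Cn n) 1) {P : Cn n → Prop}
    (hP : ∀ᶠ z in 𝓝 p, P z) : ∀ᶠ w in 𝓝 (F p), w ≠ F p → ∃ z ∈ Oe F e, P z ∧ F z = w := by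
  have hpn : ‖p‖ < 1 := mem_ball_zero_iff.1 hp
  obtain ⟨z', hz', hz'1, hg, hFne⟩ := exists_dir hF hO hp
    (r := (1 - ‖p‖) / 2) (by linarith)
  set v : Cn n := z' - p with hv
  have hvn : ‖v‖ < (1 - ‖p‖) / 2 := by
    rw [mem_ball, dist_eq_norm] at hz'
    exact hz'
  have hl : Differentiable ℂ (fun t : ℂ => p + t • v) := by fun_prop
  have hmem : ∀ t ∈ ball (0 : ℂ) 2, p + t • v ∈ ball (0 : Cn n) 1 := by
    intro t ht
    rw [mem_ball_zero_iff] at ht ⊢
    have h1 : ‖p + t • v‖ ≤ ‖p‖ + ‖t‖ * ‖v‖ := (norm_add_le _ _).trans (by rw [norm_smul])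
    have h2 : ‖t‖ * ‖v‖ ≤ 2 * ‖v‖ := mul_le_mul_of_nonneg_right ht.le (norm_nonneg v)
    linarith
  have hf : DifferentiableOn ℂ (fun t : ℂ => F (p + t • v)) (ball 0 2) :=
    hF.comp hl.differentiableOn hmem
  have hg' : DifferentiableOn ℂ (fun t : ℂ => fderiv ℂ F (p + t • v) e) (ball 0 2) := by
    have : DifferentiableOn ℂ (fun z => fderiv ℂ F z e) (ball 0 1) :=
      (differentiableOn_fderiv hF).clm_apply (differentiableOn_const _)
    exact this.comp hl.differentiableOn hmem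
  have hfa : AnalyticOnNhd ℂ (fun t : ℂ => F (p + t • v)) (ball 0 2) :=
    hf.analyticOnNhd isOpen_ball
  have hga : AnalyticOnNhd ℂ (fun t : ℂ => fderiv ℂ F (p + t • v) e) (ball 0 2) :=
    hg'.analyticOnNhd isOpen_ball
  have h0 : (0 : ℂ) ∈ ball (0 : ℂ) 2 := mem_ball_self (by norm_num)
  have h1 : (1 : ℂ) ∈ ball (0 : ℂ) 2 := by
    rw [mem_ball_zero_iff, norm_one]
    norm_num
  have hpre : IsPreconnected (ball (0 : ℂ) 2) := (convex_ball _ _).isPreconnected
  have e1 : p + (1 : ℂ) • v = z' := by rw [hv, one_smul]; abel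
  have e0 : p + (0 : ℂ) • v = p := by rw [zero_smul, add_zero]
  -- the derivative does not vanish near 0, except possibly at 0
  have hgz : ∀ᶠ t in 𝓝[≠] (0 : ℂ), fderiv ℂ F (p + t • v) e ≠ 0 := by
    rcases (hga 0 h0).eventually_eq_zero_or_eventually_ne_zero with h | h
    · exfalso
      have h2 := hga.eqOn_zero_of_preconnected_of_eventuallyEq_zero hpre h0 h h1
      simp only [Pi.zero_apply, e1] at h2
      exact hg h2
    · exact h
  -- open mapping
  have hopen : 𝓝 (F p) ≤ map (fun t : ℂ => F (p + t • v)) (𝓝 0) := by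
    rcases (hfa 0 h0).eventually_constant_or_nhds_le_map_nhds with h | h
    · exfalso
      have h2 := hfa.eqOn_of_preconnected_of_eventuallyEq analyticOnNhd_const hpre h0 h h1
      simp only [e1, e0] at h2
      exact hFne h2
    · simpa only [e0] using h
  -- conclusion
  have hPt : ∀ᶠ t in 𝓝 (0 : ℂ), P (p + t • v) := by
    have hc : Tendsto (fun t : ℂ => p + t • v) (𝓝 0) (𝓝 p) := by
      have := hl.continuous.tendsto 0
      rwa [e0] at this
    exact hc.eventually hP
  rw [eventually_nhdsWithin_iff] at hgz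
  have hN : {t : ℂ | (t ∈ ({0} : Set ℂ)ᶜ → fderiv ℂ F (p + t • v) e ≠ 0) ∧ P (p + t • v) ∧
      t ∈ ball (0 : ℂ) 2} ∈ 𝓝 (0 : ℂ) := by
    filter_upwards [hgz, hPt, isOpen_ball.mem_nhds h0] with t h2 h3 h4
    exact ⟨h2, h3, h4⟩
  filter_upwards [hopen (image_mem_map hN)] with w hw hne
  obtain ⟨t, ⟨ht1, ht2, ht3⟩, rfl⟩ := hw
  have ht0 : t ≠ 0 := by
    rintro rfl
    simp only [e0] at hne
    exact hne rfl
  exact ⟨p + t • v, ⟨hmem t ht3, ht1 ht0⟩, ht2, rfl⟩

end Kof1

open Kof1 in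
theorem kof : KOF := by
  intro n F k e hFh hk hsurj hO hconst
  have hF := hFh.an
  have hkc : ∀ p ∈ ball (0 : Cn n) 1, ContinuousAt k p := fun p hp =>
    (hk.differentiableAt (isOpen_ball.mem_nhds hp)).continuousAt
  -- near a point
  have hnear : ∀ p ∈ ball (0 : Cn n) 1, ∀ η : ℝ, 0 < η → ∀ᶠ w in 𝓝 (F p), w ≠ F p →
      ∃ z ∈ Oe F e, dist (k z) (k p) < η ∧ F z = w := fun p hp η hη =>
    near hF hO hp (Metric.tendsto_nhds.1 (hkc p hp) η hη)
  -- constancy on the fibres
  have hfib : ∀ p ∈ ball (0 : Cn n) 1, ∀ q ∈ ball (0 : Cn n) 1, F p = F q → k p = k q := by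
    intro p hp q hq hpq
    refine eq_of_forall_dist_le fun η hη => ?_
    have h1 := hnear p hp (η / 2) (by positivity)
    have h2 := hnear q hq (η / 2) (by positivity)
    rw [← hpq] at h2
    have h3 : ∀ᶠ w in 𝓝[≠] (F p), w ≠ F p := self_mem_nhdsWithin
    obtain ⟨w, hw1, hw2, hw3⟩ := ((h1.filter_mono nhdsWithin_le_nhds).and
      ((h2.filter_mono nhdsWithin_le_nhds).and h3)).exists
    obtain ⟨z, hz, hz1, hz2⟩ := hw1 hw3
    obtain ⟨z', hz', hz1', hz2'⟩ := hw2 hw3
    have h4 := hconst z hz z' hz' (hz2.trans hz2'.symm)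
    calc dist (k p) (k q) ≤ dist (k p) (k z) + dist (k z) (k q) := dist_triangle _ _ _
      _ ≤ η / 2 + η / 2 := by
        rw [dist_comm (k p)]
        refine add_le_add hz1.le ?_
        rw [h4]
        exact hz1'.le
      _ = η := by ring
  choose! s hs1 hs2 using hsurj
  refine ⟨fun w => k (s w), ?_, fun z hz => ?_⟩
  swap
  · have hw : F z ∈ ball (0 : ℂ) 1 := mem_ball_zero_iff.2 (hFh.lt z hz)
    exact hfib z hz _ (hs1 _ hw) (hs2 _ hw).symm
  -- differentiability at the values on `Oe`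
  have hO' := isOpen_Oe hF e
  have hval : ∀ z ∈ Oe F e, DifferentiableAt ℂ (fun w => k (s w)) (F z) := by
    intro z hz
    obtain ⟨ε, hε, σ, hσ0, hσd, hσ⟩ := sect n F (Oe F e) hO'
      (hF.mono fun z hz => hz.1) z hz (Oe_ne hz)
    have h1 : DifferentiableAt ℂ (fun w => k (σ w)) (F z) := by
      have h2 : DifferentiableAt ℂ σ (F z) :=
        hσd.differentiableAt (isOpen_ball.mem_nhds (mem_ball_self hε))
      have h3 : DifferentiableAt ℂ k (σ (F z)) := by
        rw [hσ0]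
        exact hk.differentiableAt (isOpen_ball.mem_nhds hz.1)
      exact h3.comp (F z) h2
    refine h1.congr_of_eventuallyEq ?_
    filter_upwards [ball_mem_nhds (F z) hε] with w hw
    have h4 := hσ w hw
    have hwb : w ∈ ball (0 : ℂ) 1 := by
      rw [← h4.2]
      exact mem_ball_zero_iff.2 (hFh.lt _ h4.1.1)
    exact hfib _ (hs1 w hwb) _ h4.1.1 ((hs2 w hwb).trans h4.2.symm)
  intro w0 hw0
  set p := s w0 with hp
  have hpb : p ∈ ball (0 : Cn n) 1 := hs1 w0 hw0
  have hFp : F p = w0 := hs2 w0 hw0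
  -- continuity
  have hcont : ContinuousAt (fun w => k (s w)) w0 := by
    rw [Metric.continuousAt_iff']
    intro η hη
    have h1 := hnear p hpb η hη
    rw [hFp] at h1
    filter_upwards [h1, isOpen_ball.mem_nhds hw0] with w hw hwb
    by_cases h : w = w0
    · rw [h, dist_self]
      exact hη
    · obtain ⟨z, hz, hz1, hz2⟩ := hw h
      have h2 : k (s w) = k z := hfib _ (hs1 w hwb) _ hz.1 ((hs2 w hwb).trans hz2.symm)
      rw [h2]
      exact hz1
  -- differentiability off the point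
  have h1 := near hF hO hpb (P := fun _ => True) (Eventually.of_forall fun _ => trivial)
  rw [hFp] at h1
  obtain ⟨S, hSsub, hSo, hSw⟩ := _root_.eventually_nhds_iff.1 h1
  have hd : DifferentiableOn ℂ (fun w => k (s w)) (S \ {w0}) := by
    intro w hw
    obtain ⟨z, hz, -, hz2⟩ := hSsub w hw.1 hw.2
    rw [← hz2]
    exact (hval z hz).differentiableWithinAt
  have hd2 := (Complex.differentiableOn_compl_singleton_and_continuousAt_iff
    (hSo.mem_nhds hSw)).1 ⟨hd, hcont⟩
  exact (hd2.differentiableAt (hSo.mem_nhds hSw)).differentiableWithinAt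

end

end Pool.Agent.Lib.MP_6ff8d9_an.P69
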