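import Pool.Agent.Lib.MP_6ff8d9_an_h1.Contact

/-!
# MP_6ff8d9 RATIONAL, row B5 (RADIAL)
-/

set_option autoImplicit false

open Metric Filter Topology MvPolynomial
open scoped ComplexConjugate

namespace Pool.Agent.Lib.MP_6ff8d9_an.H1R

open Pool.Agent.Lib.MP_6ff8d9_an Pool.Agent.Lib.MP_6ff8d9_an.Hom
open Pool.Agent.Lib.MP_6ff8d9_an.H22

theorem radial_row : H22.RADIAL := by
  intro n P Q hA m hm
  obtain ⟨b, hb, hR⟩ := (contact_row n P Q hA m hm).2
  obtain ⟨hm1, hmPQ⟩ := hm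
  have hQm : eval m Q ≠ 0 := hA.Qne m hm1.le
  have hPm : eval m P ≠ 0 := by
    intro h
    rw [h, norm_zero] at hmPQ
    exact hQm (norm_eq_zero.1 hmPQ.symm)
  have hball : ∀ t : ℂ, ‖t‖ ≤ 1 → ∑ i, ‖(t • m) i‖ ^ 2 ≤ 1 := by
    intro t ht
    rw [sum_smul_sq, hm1, mul_one]
    exact pow_le_one₀ (norm_nonneg _) ht
  have hball' : ∀ t : ℂ, ‖t‖ < 1 → ∑ i, ‖(t • m) i‖ ^ 2 < 1 := by
    intro t ht
    rw [sum_smul_sq, hm1, mul_one]
    exact pow_lt_one₀ (norm_nonneg _) ht two_ne_zero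
  set φ : ℂ → ℂ := fun t => eval (t • m) P / eval (t • m) Q with hφ
  have hline : ∀ p : MvPolynomial (Fin n) ℂ, Continuous fun t : ℂ => eval (t • m) p :=
    fun p => continuous_iff_continuousAt.2 fun t => (hasDerivAt_line p m t).continuousAt
  have hder : ∀ t : ℂ, ‖t‖ ≤ 1 → HasDerivAt φ
      (((∑ j, m j * eval (t • m) (pderiv j P)) * eval (t • m) Q -
        eval (t • m) P * (∑ j, m j * eval (t • m) (pderiv j Q))) / eval (t • m) Q ^ 2) t :=
    fun t ht => (hasDerivAt_line P m t).div (hasDerivAt_line Q m t) (hA.Qne _ (hball t ht))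
  -- the numerator of the derivative
  set N : ℂ → ℂ := fun t => (∑ j, m j * eval (t • m) (pderiv j P)) * eval (t • m) Q -
    eval (t • m) P * (∑ j, m j * eval (t • m) (pderiv j Q)) with hN
  have hNc : Continuous N := by
    rw [hN]
    refine Continuous.sub (Continuous.mul ?_ (hline Q)) (Continuous.mul (hline P) ?_)
    · exact continuous_finset_sum _ fun j _ => continuous_const.mul (hline _)
    · exact continuous_finset_sum _ fun j _ => continuous_const.mul (hline _)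
  have hN1 : N 1 ≠ 0 := by
    have : N 1 = eval m (Rr P Q) := by
      rw [hN]
      unfold Rr Wr
      simp only [one_smul]
      rw [map_sum, Finset.sum_mul, Finset.mul_sum, ← Finset.sum_sub_distrib]
      refine Finset.sum_congr rfl fun j _ => ?_
      simp only [map_mul, map_sub, eval_X]
      ring
    rw [this, hR]
    exact mul_ne_zero (by exact_mod_cast hb.ne') (mul_ne_zero hPm hQm)
  have hcur : Tendsto (fun t : ℝ => (1 : ℂ) - (t : ℂ)) (𝓝[>] 0) (𝓝 1) := by
    have : Continuous fun t : ℝ => (1 : ℂ) - (t : ℂ) := by fun_prop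
    have h := (this.tendsto 0).mono_left (nhdsWithin_le_nhds (s := Set.Ioi (0 : ℝ)))
    simpa using h
  have h01 : ∀ᶠ t : ℝ in 𝓝[>] 0, 0 < t ∧ t < 1 := by
    filter_upwards [Ioo_mem_nhdsGT (show (0 : ℝ) < 1 by norm_num)] with s hs
    exact hs
  constructor
  · have h1 : ContinuousAt φ 1 := (hder 1 (by simp)).continuousAt
    have h2 : Tendsto (fun t : ℝ => φ ((1 : ℂ) - (t : ℂ))) (𝓝[>] 0) (𝓝 (φ 1)) := h1.tendsto.comp hcur
    have e : φ 1 = fr P Q m := by rw [hφ]; simp [fr]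
    rw [e] at h2
    exact h2
  · have h3 : ∀ᶠ t : ℝ in 𝓝[>] 0, N ((1 : ℂ) - (t : ℂ)) ≠ 0 :=
      hcur.eventually (hNc.continuousAt.eventually_ne hN1)
    filter_upwards [h01, h3] with t ht hNt
    have hn : ‖(1 : ℂ) - (t : ℂ)‖ < 1 := by
      have : (1 : ℂ) - (t : ℂ) = ((1 - t : ℝ) : ℂ) := by push_cast; ring
      rw [this, Complex.norm_real, Real.norm_of_nonneg (by linarith [ht.2])]
      linarith [ht.1]
    constructor
    · unfold fr
      rw [norm_div, div_lt_one (norm_pos_iff.2 (hA.Qne _ (hball _ hn.le)))]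
      exact hA.lt _ (hball' _ hn)
    · refine ⟨(N ((1 : ℂ) - (t : ℂ)) / eval (((1 : ℂ) - (t : ℂ)) • m) Q ^ 2) * (-1),
        mul_ne_zero (div_ne_zero hNt (pow_ne_zero _ (hA.Qne _ (hball _ hn.le))))
          (by norm_num), ?_⟩
      have hc : HasDerivAt (fun t : ℝ => (1 : ℂ) - (t : ℂ)) (-1) t := by
        have := (Complex.ofRealCLM.hasDerivAt (x := t)).const_sub 1
        simpa using this
      exact HasDerivAt.comp (h₂ := φ) (h := fun t : ℝ => (1 : ℂ) - (t : ℂ)) t (hder _ hn.le) hc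

end Pool.Agent.Lib.MP_6ff8d9_an.H1R
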