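import Pool.Agent.Lib.MP_6ff8d9_an_h1.Tor
import Pool.Agent.Lib.MP_6ff8d9_an_h8.SymRows
import Pool.Agent.Lib.MP_6ff8d9_an_h50.Xext

/-!
# Rows CHI, AXI, DEG of SymmetricTwo
-/

open Metric Filter Topology MvPolynomial Matrix
open scoped ComplexConjugate

namespace Pool.Agent.Lib.MP_6ff8d9_an.N2

open Pool.Agent.Lib.MP_6ff8d9_an Pool.Agent.Lib.MP_6ff8d9_an.H22

namespace SymX

/-- a holomorphic function on a horizontal strip, invariant under real translations, is constant -/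
lemma strip_const {φ : ℂ → ℂ} {S : Set ℝ} (hS : IsOpen S) (hc : S.OrdConnected)
    (hφ : DifferentiableOn ℂ φ {ζ : ℂ | ζ.im ∈ S})
    (hinv : ∀ ζ : ℂ, ζ.im ∈ S → ∀ x : ℝ, φ (ζ + x) = φ ζ) {a b : ℂ} (ha : a.im ∈ S)
    (hb : b.im ∈ S) : φ a = φ b := by
  set U : Set ℂ := {ζ : ℂ | ζ.im ∈ S} with hU
  have hUo : IsOpen U := hS.preimage Complex.continuous_im
  have hUc : Convex ℝ U := by
    have h : Convex ℝ S := hc.convex
    exact h.linear_preimage Complex.imLm
  have han : AnalyticOnNhd ℂ φ U := hφ.analyticOnNhd hUo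
  have hcst : AnalyticOnNhd ℂ (fun _ : ℂ => φ b) U := fun _ _ => analyticAt_const
  have hfreq : ∃ᶠ z in 𝓝[≠] b, φ z = (fun _ : ℂ => φ b) z := by
    have ht : Tendsto (fun n : ℕ => b + (((1 : ℝ) / ((n : ℝ) + 1) : ℝ) : ℂ)) atTop (𝓝[≠] b) := by
      rw [tendsto_nhdsWithin_iff]
      constructor
      · have h1 : Tendsto (fun n : ℕ => (((1 : ℝ) / ((n : ℝ) + 1) : ℝ) : ℂ)) atTop (𝓝 ((0 : ℝ) : ℂ)) :=
          (Complex.continuous_ofReal.tendsto _).comp tendsto_one_div_add_atTop_nhds_zero_nat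
        have h2 := tendsto_const_nhds (x := b) (f := (atTop : Filter ℕ)) |>.add h1
        simpa using h2
      · refine Eventually.of_forall fun n => ?_
        simp only [Set.mem_compl_iff, Set.mem_singleton_iff]
        intro h
        have h3 : (((1 : ℝ) / ((n : ℝ) + 1) : ℝ) : ℂ) = 0 := by
          have := congrArg (fun t => t - b) h
          simpa using this
        have h4 : (1 : ℝ) / ((n : ℝ) + 1) = 0 := by exact_mod_cast h3
        have h5 : (0 : ℝ) < 1 / ((n : ℝ) + 1) := by positivity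
        linarith
    refine ht.frequently (Frequently.of_forall fun n => ?_)
    exact hinv b hb _
  exact han.eqOn_of_preconnected_of_frequently_eq hcst hUc.isPreconnected hb hfreq ha

/-- a holomorphic function on a disc which is constant on a circle is constant in it -/
lemma circ_const {φ : ℂ → ℂ} {R β : ℝ} (hβ : β ≠ 0) (hφ : DifferentiableOn ℂ φ (ball 0 R))
    (hinv : ∀ ζ ∈ ball (0 : ℂ) R, ∀ s : ℝ, φ (Complex.exp (s * β * Complex.I) * ζ) = φ ζ) {ζ : ℂ}
    (hζ : ζ ∈ ball (0 : ℂ) R) : φ ζ = φ 0 := by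
  rcases eq_or_ne ζ 0 with h0 | h0
  · rw [h0]
  rw [mem_ball_zero_iff] at hζ
  have hpos : 0 < ‖ζ‖ := norm_pos_iff.2 h0
  have hav : Real.circleAverage φ 0 ‖ζ‖ = φ 0 := by
    have hd : DiffContOnCl ℂ φ (ball 0 |‖ζ‖|) := by
      rw [abs_of_pos hpos]
      refine DifferentiableOn.diffContOnCl_ball (U := ball 0 R) hφ ?_
      exact closedBall_subset_ball hζ
    exact hd.circleAverage
  have hcst : Real.circleAverage φ 0 ‖ζ‖ = φ ζ := by
    have hs : ∀ x ∈ sphere (0 : ℂ) |‖ζ‖|, φ x = φ ζ := by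
      intro x hx
      rw [abs_of_pos hpos, mem_sphere_zero_iff_norm] at hx
      have hq : ‖x / ζ‖ = 1 := by rw [norm_div, hx, div_self hpos.ne']
      set α : ℝ := Complex.arg (x / ζ) with hα
      have hxe : Complex.exp (((α / β : ℝ) : ℂ) * β * Complex.I) * ζ = x := by
        have e1 : ((α / β : ℝ) : ℂ) * β * Complex.I = (α : ℂ) * Complex.I := by
          have : (β : ℂ) ≠ 0 := by exact_mod_cast hβ
          push_cast
          field_simp
        have e2 := Complex.norm_mul_exp_arg_mul_I (x / ζ)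
        rw [hq, Complex.ofReal_one, one_mul] at e2
        rw [e1, hα, e2, div_mul_cancel₀ _ h0]
      rw [← hxe]
      exact hinv ζ (by rwa [mem_ball_zero_iff]) _
    rw [Real.circleAverage_congr_sphere (f₂ := fun _ => φ ζ) hs, Real.circleAverage_const]
  rw [← hcst, hav]

lemma deg_aux (i j : Fin 2) (hn : ∀ z : Cn 2, ‖z‖ ^ 2 = ‖z i‖ ^ 2 + ‖z j‖ ^ 2)
    (hj : ∃ z ∈ ball (0 : Cn 2) 1, z i = 0 ∧ z j ≠ 0) (c : ℂ) (hc : ‖c‖ = 1) :
    ¬ IsExtremePoint 2 (fun z => (1 + c * z i) / (1 - c * z i)) := by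
  intro hE
  set g : Cn 2 → ℂ := fun z => (1 + c * z i) / (1 - c * z i) with hg
  set k : Cn 2 → ℂ := fun z => (z j / (1 - c * z i)) ^ 2 with hk
  have hlt : ∀ z ∈ ball (0 : Cn 2) 1, ‖z i‖ ^ 2 + ‖z j‖ ^ 2 < 1 := by
    intro z hz
    rw [mem_ball_zero_iff] at hz
    rw [← hn z]
    exact pow_lt_one₀ (norm_nonneg _) hz (by norm_num)
  have hlt1 : ∀ z ∈ ball (0 : Cn 2) 1, ‖c * z i‖ < 1 := by
    intro z hz
    rw [norm_mul, hc, one_mul]
    have := hlt z hz
    have h1 : ‖z i‖ ^ 2 < 1 := by nlinarith [norm_nonneg (z j)]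
    nlinarith [norm_nonneg (z i)]
  have hne : ∀ z ∈ ball (0 : Cn 2) 1, 1 - c * z i ≠ 0 := by
    intro z hz h
    have h1 := hlt1 z hz
    rw [← sub_eq_zero.1 h, norm_one] at h1
    exact lt_irrefl _ h1
  have hdi : Differentiable ℂ fun z : Cn 2 => z i := (EuclideanSpace.proj (𝕜 := ℂ) i).differentiable
  have hdj : Differentiable ℂ fun z : Cn 2 => z j := (EuclideanSpace.proj (𝕜 := ℂ) j).differentiable
  have hden : DifferentiableOn ℂ (fun z : Cn 2 => 1 - c * z i) (ball 0 1) :=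
    ((differentiable_const _).sub ((differentiable_const _).mul hdi)).differentiableOn
  have hnum : DifferentiableOn ℂ (fun z : Cn 2 => 1 + c * z i) (ball 0 1) :=
    ((differentiable_const _).add ((differentiable_const _).mul hdi)).differentiableOn
  have hgd : DifferentiableOn ℂ g (ball 0 1) := by
    rw [hg]
    simp only [div_eq_mul_inv]
    exact hnum.mul (hden.inv hne)
  have hkd : DifferentiableOn ℂ k (ball 0 1) := by
    rw [hk]
    simp only [div_eq_mul_inv]
    exact (hdj.differentiableOn.mul (hden.inv hne)).pow 2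
  have hre : ∀ z ∈ ball (0 : Cn 2) 1, ‖k z‖ < (g z).re := by
    intro z hz
    have h1 : (g z).re = (1 - ‖c * z i‖ ^ 2) / ‖1 - c * z i‖ ^ 2 := H50X.cay_re (c * z i)
    have h2 : ‖k z‖ = ‖z j‖ ^ 2 / ‖1 - c * z i‖ ^ 2 := by
      simp only [hk, norm_pow, norm_div, div_pow]
    rw [h1, h2]
    have h3 : 0 < ‖1 - c * z i‖ ^ 2 := by
      have := norm_pos_iff.2 (hne z hz)
      positivity
    refine div_lt_div_of_pos_right ?_ h3
    rw [norm_mul, hc, one_mul]
    linarith [hlt z hz]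
  have h00 : g 0 = 1 := by simp [hg]
  have k00 : k 0 = 0 := by simp [hk]
  have hp : (fun z => g z + k z) ∈ NB 2 := by
    refine ⟨hgd.add hkd, fun z hz => ?_, by show g 0 + k 0 = 1; rw [h00, k00, add_zero]⟩
    have h1 := hre z hz
    have h2 := (abs_le.1 (Complex.abs_re_le_norm (k z))).1
    show 0 < (g z + k z).re
    rw [Complex.add_re]
    linarith
  have hm : (fun z => g z - k z) ∈ NB 2 := by
    refine ⟨hgd.sub hkd, fun z hz => ?_, by show g 0 - k 0 = 1; rw [h00, k00, sub_zero]⟩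
    have h1 := hre z hz
    have h2 := (abs_le.1 (Complex.abs_re_le_norm (k z))).2
    show 0 < (g z - k z).re
    rw [Complex.sub_re]
    linarith
  obtain ⟨z, hz, hzi, hzj⟩ := hj
  have key := hE.2 _ hp _ hm (1 / 2) (by norm_num) (by norm_num) (fun z _ => by
    push_cast
    ring) z hz
  have hk0 : k z = 0 := by
    have key' : g z + k z = g z - k z := key
    linear_combination key' / 2
  simp only [hk, hzi, mul_zero, sub_zero, div_one] at hk0
  exact hzj (pow_eq_zero_iff (two_ne_zero) |>.1 hk0)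

end SymX

open SymX TorX

theorem chi : CHI := by
  intro F Ps I y₀ δ hch f hf hinv z hz
  have hw : ‖F z‖ < 1 := hch.lt z hz
  obtain ⟨ζ, hζ, hPs⟩ := hch.surj z hz
  have hd : DifferentiableOn ℂ (fun η => f (Ps (F z) η)) {η : ℂ | η.im ∈ I (F z)} :=
    hf.comp (hch.dz _ hw) fun η hη => hch.mem _ _ hw hη
  have hy : y₀ ∈ I (F z) := by
    refine hch.sub _ hw y₀ ?_
    rw [sub_self, abs_zero]
    have h1 : ‖F z‖ ^ 2 < 1 := pow_lt_one₀ (norm_nonneg _) hw (by norm_num)
    have := hch.δpos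
    have h2 : 0 < √(1 - ‖F z‖ ^ 2) := Real.sqrt_pos.2 (by linarith)
    positivity
  have key := strip_const (φ := fun η => f (Ps (F z) η)) (hch.opn _ hw) (hch.conn _ hw) hd
    (fun η hη x => hinv _ _ hw hη x) (a := ζ) (b := (y₀ : ℂ) * Complex.I) hζ (by
      simpa using hy)
  rw [← key]
  show f z = f (Ps (F z) ζ)
  rw [hPs]

theorem axi : AXI := by
  intro f β hf hβ
  constructor
  · intro hinv z hz
    have hz' := mem_Bn2.1 hz
    set R : ℝ := √(1 - ‖z 0‖ ^ 2) with hR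
    have hz1 : 0 < 1 - ‖z 0‖ ^ 2 := by nlinarith [norm_nonneg (z 1)]
    have hmem : ∀ η ∈ ball (0 : ℂ) R, ![z 0, η] ∈ Bn 2 := by
      intro η hη
      rw [mem_ball_zero_iff, hR, Real.lt_sqrt (norm_nonneg _)] at hη
      rw [mem_Bn2]
      show ‖z 0‖ ^ 2 + ‖η‖ ^ 2 < 1
      linarith
    have hd : DifferentiableOn ℂ (fun η : ℂ => f ![z 0, η]) (ball 0 R) := by
      refine hf.comp (Differentiable.differentiableOn ?_) hmem
      rw [differentiable_pi]
      intro i
      fin_cases i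
      · exact differentiable_const _
      · exact differentiable_id
    have hz2 : z 1 ∈ ball (0 : ℂ) R := by
      rw [mem_ball_zero_iff, hR, Real.lt_sqrt (norm_nonneg _)]
      linarith
    have key := circ_const hβ hd (fun η hη s => by
      have := hinv ![z 0, η] (hmem η hη) s
      simpa using this) hz2
    have hzz : ![z 0, z 1] = z := by
      ext i
      fin_cases i <;> rfl
    rw [← hzz]
    simpa using key
  · intro hinv z hz
    have hz' := mem_Bn2.1 hz
    set R : ℝ := √(1 - ‖z 1‖ ^ 2) with hR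
    have hz1 : 0 < 1 - ‖z 1‖ ^ 2 := by nlinarith [norm_nonneg (z 0)]
    have hmem : ∀ η ∈ ball (0 : ℂ) R, ![η, z 1] ∈ Bn 2 := by
      intro η hη
      rw [mem_ball_zero_iff, hR, Real.lt_sqrt (norm_nonneg _)] at hη
      rw [mem_Bn2]
      show ‖η‖ ^ 2 + ‖z 1‖ ^ 2 < 1
      linarith
    have hd : DifferentiableOn ℂ (fun η : ℂ => f ![η, z 1]) (ball 0 R) := by
      refine hf.comp (Differentiable.differentiableOn ?_) hmem
      rw [differentiable_pi]
      intro i
      fin_cases i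
      · exact differentiable_id
      · exact differentiable_const _
    have hz2 : z 0 ∈ ball (0 : ℂ) R := by
      rw [mem_ball_zero_iff, hR, Real.lt_sqrt (norm_nonneg _)]
      linarith
    have key := circ_const hβ hd (fun η hη s => by
      have := hinv ![η, z 1] (hmem η hη) s
      simpa using this) hz2
    have hzz : ![z 0, z 1] = z := by
      ext i
      fin_cases i <;> rfl
    rw [← hzz]
    simpa using key

theorem deg : DEG := by
  intro i c hc
  have hnorm : ∀ z : Cn 2, ‖z‖ ^ 2 = ‖z 0‖ ^ 2 + ‖z 1‖ ^ 2 := fun z => by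
    rw [EuclideanSpace.norm_sq_eq, Fin.sum_univ_two]
  fin_cases i
  · refine deg_aux 0 1 hnorm ⟨WithLp.toLp 2 ![0, 1 / 2], ?_, rfl, ?_⟩ c hc
    · rw [mem_ball_zero_iff, ← sq_lt_one_iff₀ (norm_nonneg _), hnorm]
      show ‖(0 : ℂ)‖ ^ 2 + ‖(1 / 2 : ℂ)‖ ^ 2 < 1
      norm_num
    · show (1 / 2 : ℂ) ≠ 0
      norm_num
  · refine deg_aux 1 0 (fun z => by rw [hnorm z, add_comm])
      ⟨WithLp.toLp 2 ![1 / 2, 0], ?_, rfl, ?_⟩ c hc
    · rw [mem_ball_zero_iff, ← sq_lt_one_iff₀ (norm_nonneg _), hnorm]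
      show ‖(1 / 2 : ℂ)‖ ^ 2 + ‖(0 : ℂ)‖ ^ 2 < 1
      norm_num
    · show (1 / 2 : ℂ) ≠ 0
      norm_num

end Pool.Agent.Lib.MP_6ff8d9_an.N2
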