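import Pool.Agent.Lib.MP_6ff8d9_an_h21.Series1
import Pool.Agent.Lib.MP_6ff8d9_an_h23.N2Rows

/-!
# Row TOR: functions on the ball of `ℂ²` which are invariant under a torus flow
-/

open Metric Filter Topology

namespace Pool.Agent.Lib.MP_6ff8d9_an.N2

open Pool.Agent.Lib.MP_6ff8d9_an Pool.Agent.Lib.MP_6ff8d9_an.H22 Pool.Agent.Lib.MP_6ff8d9_an.H21

namespace TorX

lemma mem_Bn2 {z : Fin 2 → ℂ} : z ∈ Bn 2 ↔ ‖z 0‖ ^ 2 + ‖z 1‖ ^ 2 < 1 := by
  simp [Bn, Fin.sum_univ_two]

lemma isOpen_Bn2 : IsOpen (Bn 2) := by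
  have h : Continuous fun z : Fin 2 → ℂ => ∑ i, ‖z i‖ ^ 2 := by fun_prop
  exact isOpen_lt h continuous_const

lemma slice_series {F : (Fin 2 → ℂ) → ℂ} (hF : DifferentiableOn ℂ F (Bn 2))
    (hb : ∀ z ∈ Bn 2, ‖F z‖ < 1) {z : Fin 2 → ℂ} (hz : z ∈ Bn 2) :
    ∃ (r : ℝ) (c : ℕ → ℂ), 1 < r ∧ (∀ k, ‖c k‖ * r ^ k ≤ 1) ∧
      ∀ t ∈ ball (0 : ℂ) r, HasSum (fun k => c k * t ^ k) (F (t • z)) := by
  have hN := mem_Bn2.1 hz
  set N : ℝ := ‖z 0‖ ^ 2 + ‖z 1‖ ^ 2 with hNd
  have hN0 : 0 ≤ N := by positivity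
  set r : ℝ := √(2 / (1 + N)) with hr
  have hr2 : r ^ 2 = 2 / (1 + N) := Real.sq_sqrt (by positivity)
  have hr0 : 0 ≤ r := Real.sqrt_nonneg _
  have hr1 : 1 < r := by
    rw [hr, Real.lt_sqrt (by norm_num), one_pow, lt_div_iff₀ (by linarith)]
    linarith
  have hmem : ∀ t ∈ ball (0 : ℂ) r, t • z ∈ Bn 2 := by
    intro t ht
    rw [mem_ball_zero_iff] at ht
    rw [mem_Bn2]
    simp only [Pi.smul_apply, smul_eq_mul, norm_mul, mul_pow]
    have h1 : ‖t‖ ^ 2 ≤ r ^ 2 := pow_le_pow_left₀ (norm_nonneg _) ht.le 2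
    have h2 : ‖t‖ ^ 2 * ‖z 0‖ ^ 2 + ‖t‖ ^ 2 * ‖z 1‖ ^ 2 = ‖t‖ ^ 2 * N := by rw [hNd]; ring
    rw [h2]
    have h3 : ‖t‖ ^ 2 * N ≤ r ^ 2 * N := mul_le_mul_of_nonneg_right h1 hN0
    refine lt_of_le_of_lt h3 ?_
    rw [hr2, div_mul_eq_mul_div, div_lt_one (by linarith)]
    linarith
  have hd : DifferentiableOn ℂ (fun t : ℂ => F (t • z)) (ball 0 r) := by
    refine hF.comp (Differentiable.differentiableOn ?_) hmem
    exact differentiable_id.smul_const z
  obtain ⟨c, hc1, hc2⟩ := one_var (by linarith : 0 < r) hd (M := 1)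
    (fun t ht => (hb _ (hmem t ht)).le)
  exact ⟨r, c, hr1, hc1, hc2⟩

lemma norm_exp_re (x : ℝ) (y : ℝ) : ‖Complex.exp ((x : ℂ) * y * Complex.I)‖ = 1 := by
  have : (x : ℂ) * y * Complex.I = ((x * y : ℝ) : ℂ) * Complex.I := by push_cast; ring
  rw [this, Complex.norm_exp_ofReal_mul_I]

/-- the power series of an invariant function -/
lemma local_coeff {F : (Fin 2 → ℂ) → ℂ} {α β : ℝ} (hF : DifferentiableOn ℂ F (Bn 2))
    (hb : ∀ z ∈ Bn 2, ‖F z‖ < 1)
    (hinv : ∀ z ∈ Bn 2, ∀ s : ℝ, F ![Complex.exp (s * α * Complex.I) * z 0,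
      Complex.exp (s * β * Complex.I) * z 1] = F z) :
    ∃ a : (Fin 2 → ℕ) → ℂ, (∀ γ, a γ ≠ 0 → α * γ 0 + β * γ 1 = 0) ∧
      ∀ y ∈ PD (fun _ : Fin 2 => (1 / 2 : ℝ)), HasSum (fun γ => a γ * mon γ y) (F y) := by
  have hsub : ∀ y ∈ PD (fun _ : Fin 2 => (1 / 2 : ℝ)), y ∈ Bn 2 := by
    intro y hy
    rw [mem_Bn2]
    have h0 := hy 0
    have h1 := hy 1
    have := norm_nonneg (y 0)
    have := norm_nonneg (y 1)
    nlinarith
  obtain ⟨a, -, ha⟩ := poly_series 2 (fun _ => (1 / 2 : ℝ)) (fun _ => by norm_num) F 1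
    (by
      intro y hy j
      refine hF.comp (Differentiable.differentiableOn ?_) ?_
      · rw [differentiable_pi]
        intro i
        by_cases h : i = j
        · subst h
          simp only [Function.update_self]
          exact differentiable_id
        · simp only [Function.update_of_ne h]
          exact differentiable_const _
      · intro t ht
        refine hsub _ fun i => ?_
        rw [mem_ball_zero_iff] at ht
        by_cases h : i = j
        · subst h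
          rw [Function.update_self]
          exact ht
        · rw [Function.update_of_ne h]
          exact hy i)
    (fun y hy => (hb y (hsub y hy)).le)
  refine ⟨a, fun γ hγ => ?_, ha⟩
  by_contra hne
  set w : ℝ := α * γ 0 + β * γ 1 with hw
  set s : ℝ := Real.pi / w with hs
  have key := poly_unique 2 (fun _ => (1 / 2 : ℝ)) (fun _ => by norm_num)
    (fun δ => a δ * (Complex.exp (((s * (α * δ 0 + β * δ 1) : ℝ) : ℂ) * Complex.I)) - a δ) (by
      intro y hy
      have h1 := ha y hy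
      have hy' : ![Complex.exp (s * α * Complex.I) * y 0, Complex.exp (s * β * Complex.I) * y 1] ∈
          PD (fun _ : Fin 2 => (1 / 2 : ℝ)) := by
        intro j
        fin_cases j
        · show ‖Complex.exp (s * α * Complex.I) * y 0‖ < 1 / 2
          rw [norm_mul, norm_exp_re, one_mul]
          exact hy 0
        · show ‖Complex.exp (s * β * Complex.I) * y 1‖ < 1 / 2
          rw [norm_mul, norm_exp_re, one_mul]
          exact hy 1
      have h2 := ha _ hy'
      rw [hinv y (hsub y hy) s] at h2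
      have h3 := h2.sub h1
      rw [sub_self] at h3
      refine h3.congr_fun fun δ => ?_
      have e1 : mon δ ![Complex.exp (s * α * Complex.I) * y 0,
          Complex.exp (s * β * Complex.I) * y 1] =
          Complex.exp (((s * (α * δ 0 + β * δ 1) : ℝ) : ℂ) * Complex.I) * mon δ y := by
        unfold mon
        rw [Fin.prod_univ_two, Fin.prod_univ_two]
        simp only [Matrix.cons_val_zero, Matrix.cons_val_one, mul_pow]
        rw [← Complex.exp_nat_mul, ← Complex.exp_nat_mul]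
        have : Complex.exp (((s * (α * δ 0 + β * δ 1) : ℝ) : ℂ) * Complex.I) =
            Complex.exp ((δ 0 : ℂ) * (s * α * Complex.I)) *
              Complex.exp ((δ 1 : ℂ) * (s * β * Complex.I)) := by
          rw [← Complex.exp_add]
          congr 1
          push_cast
          ring
        rw [this]
        ring
      rw [e1]
      ring) γ
  have e2 : s * (α * γ 0 + β * γ 1) = Real.pi := by
    rw [hs, ← hw]
    field_simp
  simp only [e2, Complex.exp_pi_mul_I] at key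
  apply hγ
  have : a γ * (-1) - a γ = -2 * a γ := by ring
  rw [this] at key
  rcases mul_eq_zero.1 key with h | h
  · norm_num at h
  · exact h

/-- the series of `F` on the whole ball -/
lemma global_series {F : (Fin 2 → ℂ) → ℂ} (hF : DifferentiableOn ℂ F (Bn 2))
    (hb : ∀ z ∈ Bn 2, ‖F z‖ < 1) {a b : ℕ} (ha : 1 ≤ a) {co : (Fin 2 → ℕ) → ℂ}
    (hco : ∀ γ, co γ ≠ 0 → ∃ i, γ = ![i * a, i * b])
    (hs : ∀ y ∈ PD (fun _ : Fin 2 => (1 / 2 : ℝ)), HasSum (fun γ => co γ * mon γ y) (F y))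
    {z : Fin 2 → ℂ} (hz : z ∈ Bn 2) :
    (∀ i : ℕ, ‖co ![i * a, i * b] * (z 0 ^ a * z 1 ^ b) ^ i‖ ≤ 1) ∧
      HasSum (fun i : ℕ => co ![i * a, i * b] * (z 0 ^ a * z 1 ^ b) ^ i) (F z) := by
  set m : ℂ := z 0 ^ a * z 1 ^ b with hm
  have hab : 0 < a + b := by omega
  -- the reindexed local series
  have hinj : Function.Injective fun i : ℕ => (![i * a, i * b] : Fin 2 → ℕ) := by
    intro i j hij
    have := congrFun hij 0
    simp only [Matrix.cons_val_zero] at this
    exact Nat.eq_of_mul_eq_mul_right (by omega) this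
  have hloc : ∀ y ∈ PD (fun _ : Fin 2 => (1 / 2 : ℝ)),
      HasSum (fun i : ℕ => co ![i * a, i * b] * (y 0 ^ a * y 1 ^ b) ^ i) (F y) := by
    intro y hy
    have h1 := (hinj.hasSum_iff (f := fun γ => co γ * mon γ y) (by
      intro γ hγ
      by_contra hne
      obtain ⟨i, hi⟩ := hco γ (fun h => hne (by rw [h, zero_mul]))
      exact hγ ⟨i, hi.symm⟩)).2 (hs y hy)
    refine h1.congr_fun fun i => ?_
    simp only [Function.comp_apply]
    congr 1
    unfold mon
    rw [Fin.prod_univ_two]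
    simp only [Matrix.cons_val_zero, Matrix.cons_val_one]
    rw [mul_pow, ← pow_mul, ← pow_mul, mul_comm a i, mul_comm b i]
  obtain ⟨r, c, hr, hc1, hc2⟩ := slice_series hF hb hz
  set d : ℕ → ℂ := fun k => if (a + b) ∣ k then
    co ![k / (a + b) * a, k / (a + b) * b] * m ^ (k / (a + b)) else 0 with hd
  have hκ : Function.Injective fun i : ℕ => (a + b) * i := by
    intro i j hij
    exact Nat.eq_of_mul_eq_mul_left hab hij
  have hdκ : ∀ i, d ((a + b) * i) = co ![i * a, i * b] * m ^ i := by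
    intro i
    simp only [hd]
    rw [if_pos (Dvd.intro i rfl), Nat.mul_div_cancel_left i hab]
  have hd0 : ∀ k, k ∉ Set.range (fun i : ℕ => (a + b) * i) → d k = 0 := by
    intro k hk
    simp only [hd]
    rw [if_neg]
    rintro ⟨i, hi⟩
    exact hk ⟨i, hi.symm⟩
  have hre : ∀ (t : ℂ) (v : ℂ), HasSum (fun k => d k * t ^ k) v ↔
      HasSum (fun i : ℕ => co ![i * a, i * b] * (t ^ (a + b) * m) ^ i) v := by
    intro t v
    rw [← hκ.hasSum_iff (f := fun k => d k * t ^ k) (by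
      intro k hk
      rw [hd0 k hk, zero_mul])]
    have e : ((fun k => d k * t ^ k) ∘ fun i : ℕ => (a + b) * i) =
        fun i : ℕ => co ![i * a, i * b] * (t ^ (a + b) * m) ^ i := by
      funext i
      simp only [Function.comp_apply]
      rw [hdκ, mul_pow, ← pow_mul]
      ring
    rw [e]
  have hz1 := mem_Bn2.1 hz
  have hzj : ∀ j, ‖z j‖ ≤ 1 := by
    intro j
    have h0 := norm_nonneg (z 0)
    have h1 := norm_nonneg (z 1)
    fin_cases j
    · show ‖z 0‖ ≤ 1
      nlinarith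
    · show ‖z 1‖ ≤ 1
      nlinarith
  have hcd : ∀ k, c k - d k = 0 := by
    intro k
    refine one_unique (c := fun k => c k - d k) (r := 1 / 2) (by norm_num) ?_ k
    intro t ht
    rw [mem_ball_zero_iff] at ht
    have h1 := hc2 t (by rw [mem_ball_zero_iff]; linarith)
    have h2 : HasSum (fun k => d k * t ^ k) (F (t • z)) := by
      rw [hre]
      have h3 := hloc (t • z) (by
        intro j
        show ‖t * z j‖ < 1 / 2
        rw [norm_mul]
        have := hzj j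
        have := norm_nonneg t
        nlinarith)
      refine h3.congr_fun fun i => ?_
      simp only [Pi.smul_apply, smul_eq_mul]
      rw [hm]
      ring
    have h3 := h1.sub h2
    rw [sub_self] at h3
    refine h3.congr_fun fun k => ?_
    ring
  have hcd' : ∀ k, c k = d k := fun k => sub_eq_zero.1 (hcd k)
  constructor
  · intro i
    rw [← hdκ i, ← hcd']
    have h1 := hc1 ((a + b) * i)
    have h2 : (1 : ℝ) ≤ r ^ ((a + b) * i) := one_le_pow₀ hr.le
    have h3 := norm_nonneg (c ((a + b) * i))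
    nlinarith
  · have h1 := hc2 1 (by rw [mem_ball_zero_iff, norm_one]; exact hr)
    have h2 : HasSum (fun k => d k * (1 : ℂ) ^ k) (F ((1 : ℂ) • z)) := by
      refine h1.congr_fun fun k => ?_
      rw [hcd']
    rw [hre, one_smul] at h2
    refine h2.congr_fun fun i => ?_
    rw [one_pow, one_mul]

/-- a unit vector where the sharp monomial is one -/
lemma exists_unit {a b : ℕ} {c : ℂ} (ha : 1 ≤ a) (hb : 1 ≤ b) (hc : Sharp a b c) :
    ∃ ζ : Fin 2 → ℂ, ‖ζ 0‖ ^ 2 + ‖ζ 1‖ ^ 2 = 1 ∧ c * (ζ 0 ^ a * ζ 1 ^ b) = 1 := by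
  have ha' : (0 : ℝ) < a := by exact_mod_cast ha
  have hb' : (0 : ℝ) < b := by exact_mod_cast hb
  set x : ℝ := √(a / (a + b)) with hx
  set y : ℝ := √(b / (a + b)) with hy
  have hx2 : x ^ 2 = a / (a + b) := Real.sq_sqrt (by positivity)
  have hy2 : y ^ 2 = b / (a + b) := Real.sq_sqrt (by positivity)
  have hx0 : 0 ≤ x := Real.sqrt_nonneg _
  have hy0 : 0 ≤ y := Real.sqrt_nonneg _
  set q : ℂ := c * ((x : ℂ) ^ a * (y : ℂ) ^ b) with hq
  have hq1 : ‖q‖ ^ 2 = 1 := by
    rw [hq, norm_mul, norm_mul, norm_pow, norm_pow, Complex.norm_real, Complex.norm_real,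
      Real.norm_eq_abs, Real.norm_eq_abs, abs_of_nonneg hx0, abs_of_nonneg hy0]
    have e : (‖c‖ * (x ^ a * y ^ b)) ^ 2 = ‖c‖ ^ 2 * ((x ^ 2) ^ a * (y ^ 2) ^ b) := by ring
    rw [e, hx2, hy2, div_pow, div_pow]
    have e2 : ‖c‖ ^ 2 * ((a : ℝ) ^ a / ((a : ℝ) + b) ^ a * ((b : ℝ) ^ b / ((a : ℝ) + b) ^ b)) =
        (‖c‖ ^ 2 * ((a : ℝ) ^ a * (b : ℝ) ^ b)) / ((a : ℝ) + b) ^ (a + b) := by
      rw [pow_add]
      field_simp
    rw [e2]
    unfold Sharp at hc
    rw [hc]
    exact div_self (by positivity)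
  have hq0 : q ≠ 0 := by
    intro h
    rw [h] at hq1
    norm_num at hq1
  have hqn : ‖q‖ = 1 := by
    have := norm_nonneg q
    nlinarith
  obtain ⟨u, hu⟩ := IsAlgClosed.exists_pow_nat_eq (k := ℂ) q⁻¹ (n := a) (by omega)
  have hun : ‖u‖ = 1 := by
    have h1 : ‖u‖ ^ a = 1 := by
      rw [← norm_pow, hu, norm_inv, hqn, inv_one]
    exact (pow_eq_one_iff_of_nonneg (norm_nonneg u) (by omega)).1 h1
  refine ⟨![u * x, y], ?_, ?_⟩
  · simp only [Matrix.cons_val_zero, Matrix.cons_val_one]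
    rw [norm_mul, hun, one_mul, Complex.norm_real, Complex.norm_real, Real.norm_eq_abs,
      Real.norm_eq_abs, abs_of_nonneg hx0, abs_of_nonneg hy0, hx2, hy2]
    field_simp
  · simp only [Matrix.cons_val_zero, Matrix.cons_val_one]
    have e : c * ((u * (x : ℂ)) ^ a * (y : ℂ) ^ b) = u ^ a * q := by
      rw [hq]
      ring
    rw [e, hu]
    exact inv_mul_cancel₀ hq0

end TorX

open TorX in
theorem tor : TOR := by
  intro F α β hF hb hα hβ hinv hnc
  obtain ⟨co, hco, hs⟩ := local_coeff hF hb hinv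
  -- a nonzero coefficient
  obtain ⟨γ, hγ0, hγ⟩ : ∃ γ, γ ≠ 0 ∧ co γ ≠ 0 := by
    by_contra hne
    push Not at hne
    obtain ⟨z, hz, hzF⟩ := hnc
    apply hzF
    have hz1 : ∀ γ, co γ ≠ 0 → ∃ i, γ = ![i * 1, i * 1] := by
      intro γ hγ
      refine ⟨0, ?_⟩
      by_contra h
      refine hγ (hne γ fun h0 => h ?_)
      rw [h0]
      funext j
      fin_cases j <;> rfl
    have h0 : (0 : Fin 2 → ℂ) ∈ Bn 2 := by
      rw [mem_Bn2]
      simp
    have h2 : ∀ w ∈ Bn 2, F w = co 0 := by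
      intro w hw
      have h3 := (global_series (a := 1) (b := 1) hF hb le_rfl hz1 hs hw).2
      have h4 : HasSum (fun i : ℕ => co ![i * 1, i * 1] * (w 0 ^ 1 * w 1 ^ 1) ^ i)
          (co ![0 * 1, 0 * 1] * (w 0 ^ 1 * w 1 ^ 1) ^ 0) := by
        refine hasSum_single 0 fun i hi => ?_
        rw [hne, zero_mul]
        intro h
        have := congrFun h 0
        simp only [Matrix.cons_val_zero, Pi.zero_apply, mul_one] at this
        exact hi this
      rw [h3.unique h4, pow_zero, mul_one]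
      congr 1
      funext j
      fin_cases j <;> rfl
    rw [h2 z hz, h2 0 h0]
  have hw := hco γ hγ
  have hg0 : γ 0 ≠ 0 := by
    intro h
    rw [h, Nat.cast_zero, mul_zero, zero_add] at hw
    have h1 : γ 1 = 0 := by
      rcases mul_eq_zero.1 hw with h' | h'
      · exact absurd h' hβ
      · exact_mod_cast h'
    apply hγ0
    funext j
    fin_cases j
    · exact h
    · exact h1
  have hg1 : γ 1 ≠ 0 := by
    intro h
    rw [h, Nat.cast_zero, mul_zero, add_zero] at hw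
    rcases mul_eq_zero.1 hw with h' | h'
    · exact hα h'
    · exact hg0 (by exact_mod_cast h')
  set g := Nat.gcd (γ 0) (γ 1) with hg
  have hgpos : 0 < g := Nat.gcd_pos_of_pos_left _ (Nat.pos_of_ne_zero hg0)
  obtain ⟨a, ha⟩ : g ∣ γ 0 := Nat.gcd_dvd_left _ _
  obtain ⟨b, hb'⟩ : g ∣ γ 1 := Nat.gcd_dvd_right _ _
  have ha1 : 1 ≤ a := by
    rcases Nat.eq_zero_or_pos a with h | h
    · rw [h, mul_zero] at ha
      exact absurd ha hg0
    · exact h
  have hb1 : 1 ≤ b := by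
    rcases Nat.eq_zero_or_pos b with h | h
    · rw [h, mul_zero] at hb'
      exact absurd hb' hg1
    · exact h
  have hcop : a.Coprime b := by
    have h1 := Nat.coprime_div_gcd_div_gcd (m := γ 0) (n := γ 1) hgpos
    rw [← hg] at h1
    rw [ha, hb', Nat.mul_div_cancel_left _ hgpos, Nat.mul_div_cancel_left _ hgpos] at h1
    exact h1
  have hsupp : ∀ δ, co δ ≠ 0 → ∃ i, δ = ![i * a, i * b] := by
    intro δ hδ
    have h1 := hco δ hδ
    have h2 : (δ 0 : ℝ) * γ 1 = δ 1 * γ 0 := by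
      have h3 : α * ((δ 0 : ℝ) * γ 1 - δ 1 * γ 0) = 0 := by
        have : α * ((δ 0 : ℝ) * γ 1 - δ 1 * γ 0) =
          γ 1 * (α * δ 0 + β * δ 1) - δ 1 * (α * γ 0 + β * γ 1) := by ring
        rw [this, h1, hw]
        ring
      rcases mul_eq_zero.1 h3 with h | h
      · exact absurd h hα
      · linarith
    have h3 : δ 0 * γ 1 = δ 1 * γ 0 := by exact_mod_cast h2
    rw [ha, hb'] at h3
    have h4 : δ 0 * b = δ 1 * a := by
      apply Nat.eq_of_mul_eq_mul_left hgpos
      calc g * (δ 0 * b) = δ 0 * (g * b) := by ring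
        _ = δ 1 * (g * a) := h3
        _ = g * (δ 1 * a) := by ring
    have h5 : a ∣ δ 0 := by
      have : a ∣ δ 0 * b := by
        rw [h4]
        exact Dvd.intro_left _ rfl
      exact hcop.dvd_of_dvd_mul_right this
    obtain ⟨i, hi⟩ := h5
    refine ⟨i, ?_⟩
    have h6 : δ 1 = i * b := by
      apply Nat.eq_of_mul_eq_mul_right (show 0 < a by omega)
      rw [← h4, hi]
      ring
    funext j
    fin_cases j
    · show δ 0 = i * a
      rw [hi]
      ring
    · show δ 1 = i * b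
      exact h6
  refine ⟨a, b, ha1, hb1, hcop, fun c hc => ?_⟩
  have hser : ∀ z ∈ Bn 2, HasSum (fun i : ℕ => co ![i * a, i * b] * (z 0 ^ a * z 1 ^ b) ^ i) (F z) :=
    fun z hz => (global_series hF hb ha1 hsupp hs hz).2
  have hc0 : c ≠ 0 := by
    rintro rfl
    unfold Sharp at hc
    have ha' : (0 : ℝ) < a := by exact_mod_cast ha1
    have : (0 : ℝ) < ((a : ℝ) + b) ^ (a + b) := by positivity
    rw [← hc] at this
    simp at this
  obtain ⟨ζ, hζ1, hζ2⟩ := exists_unit ha1 hb1 hc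
  set D : ℕ → ℂ := fun i => co ![i * a, i * b] * (c⁻¹) ^ i with hD
  -- points over `w`
  have hpt : ∀ w ∈ ball (0 : ℂ) 1, ∃ z ∈ Bn 2, c * (z 0 ^ a * z 1 ^ b) = w := by
    intro w hw
    rw [mem_ball_zero_iff] at hw
    obtain ⟨t, ht⟩ := IsAlgClosed.exists_pow_nat_eq (k := ℂ) w (n := a + b) (by omega)
    have ht1 : ‖t‖ < 1 := by
      have h1 : ‖t‖ ^ (a + b) < 1 := by rw [← norm_pow, ht]; exact hw
      by_contra h
      exact absurd (one_le_pow₀ (not_lt.1 h)) (not_le.2 h1)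
    refine ⟨t • ζ, ?_, ?_⟩
    · rw [mem_Bn2]
      simp only [Pi.smul_apply, smul_eq_mul, norm_mul, mul_pow]
      have e : ‖t‖ ^ 2 * ‖ζ 0‖ ^ 2 + ‖t‖ ^ 2 * ‖ζ 1‖ ^ 2 = ‖t‖ ^ 2 := by
        rw [← mul_add, hζ1, mul_one]
      rw [e]
      have := norm_nonneg t
      nlinarith
    · simp only [Pi.smul_apply, smul_eq_mul]
      have e : c * ((t * ζ 0) ^ a * (t * ζ 1) ^ b) = t ^ (a + b) * (c * (ζ 0 ^ a * ζ 1 ^ b)) := by
        ring
      rw [e, hζ2, mul_one, ht]
  have hDs : ∀ z ∈ Bn 2, HasSum (fun i => D i * (c * (z 0 ^ a * z 1 ^ b)) ^ i) (F z) := by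
    intro z hz
    refine (hser z hz).congr_fun fun i => ?_
    simp only [hD]
    rw [mul_pow c, mul_assoc (co _), ← mul_assoc (c⁻¹ ^ i), ← mul_pow, inv_mul_cancel₀ hc0,
      one_pow, one_mul]
  have hDb : ∀ i, ‖D i‖ ≤ 1 := by
    intro i
    have h1 : ∀ ρ : ℝ, 0 < ρ → ρ < 1 → ‖D i‖ * ρ ^ i ≤ 1 := by
      intro ρ hρ0 hρ1
      obtain ⟨z, hz, hzw⟩ := hpt (ρ : ℂ) (by
        rw [mem_ball_zero_iff, Complex.norm_real, Real.norm_eq_abs, abs_of_pos hρ0]
        exact hρ1)
      have h2 := (global_series hF hb ha1 hsupp hs hz).1 i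
      have h3 : co ![i * a, i * b] * (z 0 ^ a * z 1 ^ b) ^ i = D i * (ρ : ℂ) ^ i := by
        rw [← hzw]
        simp only [hD]
        rw [mul_pow c, mul_assoc (co _), ← mul_assoc (c⁻¹ ^ i), ← mul_pow, inv_mul_cancel₀ hc0,
          one_pow, one_mul]
      rw [h3, norm_mul, norm_pow, Complex.norm_real, Real.norm_eq_abs, abs_of_pos hρ0] at h2
      exact h2
    have h2 : Tendsto (fun ρ : ℝ => ‖D i‖ * ρ ^ i) (𝓝[<] 1) (𝓝 (‖D i‖ * 1 ^ i)) := by
      have hc' : Continuous fun ρ : ℝ => ‖D i‖ * ρ ^ i := by fun_prop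
      exact (hc'.tendsto 1).mono_left nhdsWithin_le_nhds
    rw [one_pow, mul_one] at h2
    refine le_of_tendsto h2 ?_
    filter_upwards [Ioo_mem_nhdsLT (show (0 : ℝ) < 1 by norm_num)] with ρ hρ
    exact h1 ρ hρ.1 hρ.2
  refine ⟨fun w => ∑' i, D i * w ^ i, ?_, ?_, ?_⟩
  · intro w hw
    rw [mem_ball_zero_iff] at hw
    obtain ⟨ρ, hρ1, hρ2⟩ := exists_between hw
    have hρ0 : 0 ≤ ρ := (norm_nonneg w).trans hρ1.le
    have hd : DifferentiableOn ℂ (fun w => ∑' i, D i * w ^ i) (ball 0 ρ) := by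
      refine Complex.differentiableOn_tsum_of_summable_norm
        (summable_geometric_of_lt_one hρ0 hρ2) (fun i => ?_) isOpen_ball (fun i v hv => ?_)
      · fun_prop
      · rw [mem_ball_zero_iff] at hv
        rw [norm_mul, norm_pow]
        calc ‖D i‖ * ‖v‖ ^ i ≤ 1 * ρ ^ i :=
              mul_le_mul (hDb i) (pow_le_pow_left₀ (norm_nonneg _) hv.le i) (by positivity)
                zero_le_one
          _ = ρ ^ i := one_mul _
    have hat : DifferentiableAt ℂ (fun w => ∑' i, D i * w ^ i) w :=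
      hd.differentiableAt (isOpen_ball.mem_nhds (by rw [mem_ball_zero_iff]; exact hρ1))
    exact hat.differentiableWithinAt
  · intro w hw
    obtain ⟨z, hz, hzw⟩ := hpt w hw
    have h1 := hDs z hz
    rw [hzw] at h1
    simp only
    rw [h1.tsum_eq]
    exact hb z hz
  · intro z hz
    have h1 := hDs z hz
    simp only
    rw [mul_assoc c, h1.tsum_eq]

end Pool.Agent.Lib.MP_6ff8d9_an.N2
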